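import Mathlib

set_option autoImplicit false

namespace Pool.Agent.Results.MP_78c384_co.K33

/-- length of the intersection of `[l, r]` and `[l', r']` (zero when empty) -/
def len (l r l' r' : ℝ) : ℝ := max 0 (min r r' - max l l')

def BoundedTol {V : Type} (G : SimpleGraph V) : Prop :=
  ∃ L R t : V → ℝ, (∀ v, L v ≤ R v ∧ 0 < t v ∧ t v ≤ R v - L v) ∧
    ∀ x y, x ≠ y → (G.Adj x y ↔ min (t x) (t y) ≤ len (L x) (R x) (L y) (R y))

def MaxTol {V : Type} (G : SimpleGraph V) : Prop :=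
  ∃ L R t : V → ℝ, (∀ v, L v ≤ R v ∧ 0 < t v) ∧
    ∀ x y, x ≠ y → (G.Adj x y ↔ max (t x) (t y) ≤ len (L x) (R x) (L y) (R y))

/-- all coordinatewise mixtures of `p` and `q` have nonpositive sum -/
def Meet (p q : ℝ × ℝ × ℝ) : Prop :=
  p.1 + p.2.1 + p.2.2 ≤ 0 ∧ q.1 + q.2.1 + q.2.2 ≤ 0 ∧
  q.1 + p.2.1 + p.2.2 ≤ 0 ∧ p.1 + q.2.1 + q.2.2 ≤ 0 ∧
  p.1 + q.2.1 + p.2.2 ≤ 0 ∧ q.1 + p.2.1 + q.2.2 ≤ 0 ∧
  p.1 + p.2.1 + q.2.2 ≤ 0 ∧ q.1 + q.2.1 + p.2.2 ≤ 0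

def S1 (p q : ℝ × ℝ × ℝ) : Prop := 0 < q.1 + p.2.1 + p.2.2
def S2 (p q : ℝ × ℝ × ℝ) : Prop := 0 < p.1 + q.2.1 + p.2.2
def S3 (p q : ℝ × ℝ × ℝ) : Prop := 0 < p.1 + p.2.1 + q.2.2
def Sep (p q : ℝ × ℝ × ℝ) : Prop := (S1 p q ∨ S1 q p) ∨ (S2 p q ∨ S2 q p) ∨ (S3 p q ∨ S3 q p)

def rot (p : ℝ × ℝ × ℝ) : ℝ × ℝ × ℝ := (p.2.1, p.2.2, p.1)

theorem Meet.symm {p q : ℝ × ℝ × ℝ} (h : Meet p q) : Meet q p := by
  unfold Meet at *; tauto

theorem Meet.rot {p q : ℝ × ℝ × ℝ} (h : Meet p q) : Meet (rot p) (rot q) := by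
  obtain ⟨h1, h2, h3, h4, h5, h6, h7, h8⟩ := h
  refine ⟨?_, ?_, ?_, ?_, ?_, ?_, ?_, ?_⟩ <;> simp only [K33.rot] <;> linarith

theorem r1 {p q : ℝ × ℝ × ℝ} : S1 (rot p) (rot q) ↔ S2 p q := by
  simp only [S1, S2, rot]; constructor <;> intro h <;> linarith
theorem r2 {p q : ℝ × ℝ × ℝ} : S2 (rot p) (rot q) ↔ S3 p q := by
  simp only [S3, S2, rot]; constructor <;> intro h <;> linarith
theorem r3 {p q : ℝ × ℝ × ℝ} : S3 (rot p) (rot q) ↔ S1 p q := by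
  simp only [S1, S3, rot]; constructor <;> intro h <;> linarith

theorem Sep.rot {p q : ℝ × ℝ × ℝ} (h : Sep p q) : Sep (rot p) (rot q) := by
  unfold Sep at *; rw [r1, r1, r2, r2, r3, r3]; tauto

theorem core (a b c x y z : ℝ × ℝ × ℝ) (h1 : S1 a b) (h2 : S1 b c)
    (ax : Meet a x) (ay : Meet a y) (az : Meet a z) (bx : Meet b x) (bY : Meet b y) (bz : Meet b z)
    (cx : Meet c x) (cy : Meet c y) (cz : Meet c z)
    (s1 : Sep x y) (s2 : Sep y z) (s3 : Sep x z) : False := by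
  obtain ⟨_, _, _, _, _, _, _, _⟩ := ax
  obtain ⟨_, _, _, _, _, _, _, _⟩ := ay
  obtain ⟨_, _, _, _, _, _, _, _⟩ := az
  obtain ⟨_, _, _, _, _, _, _, _⟩ := bx
  obtain ⟨_, _, _, _, _, _, _, _⟩ := bY
  obtain ⟨_, _, _, _, _, _, _, _⟩ := bz
  obtain ⟨_, _, _, _, _, _, _, _⟩ := cx
  obtain ⟨_, _, _, _, _, _, _, _⟩ := cy
  obtain ⟨_, _, _, _, _, _, _, _⟩ := cz
  unfold Sep S1 S2 S3 at *
  rcases s1 with (s1 | s1) | (s1 | s1) | (s1 | s1) <;> (try linarith) <;>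
    rcases s2 with (s2 | s2) | (s2 | s2) | (s2 | s2) <;> (try linarith) <;>
    rcases s3 with (s3 | s3) | (s3 | s3) | (s3 | s3) <;> linarith

structure Cfg (a b c x y z : ℝ × ℝ × ℝ) : Prop where
  ax : Meet a x
  ay : Meet a y
  az : Meet a z
  bx : Meet b x
  bY : Meet b y
  bz : Meet b z
  cx : Meet c x
  cy : Meet c y
  cz : Meet c z
  ab : Sep a b
  bc : Sep b c
  ac : Sep a c
  xy : Sep x y
  yz : Sep y z
  xz : Sep x z

theorem Cfg.rot {a b c x y z : ℝ × ℝ × ℝ} (h : Cfg a b c x y z) :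
    Cfg (rot a) (rot b) (rot c) (rot x) (rot y) (rot z) :=
  ⟨h.ax.rot, h.ay.rot, h.az.rot, h.bx.rot, h.bY.rot, h.bz.rot, h.cx.rot, h.cy.rot, h.cz.rot,
    h.ab.rot, h.bc.rot, h.ac.rot, h.xy.rot, h.yz.rot, h.xz.rot⟩

theorem Cfg.symm {a b c x y z : ℝ × ℝ × ℝ} (h : Cfg a b c x y z) : Cfg x y z a b c :=
  ⟨h.ax.symm, h.bx.symm, h.cx.symm, h.ay.symm, h.bY.symm, h.cy.symm, h.az.symm, h.bz.symm,
    h.cz.symm, h.xy, h.yz, h.xz, h.ab, h.bc, h.ac⟩

def T (S : ℝ × ℝ × ℝ → ℝ × ℝ × ℝ → Prop) (a b c : ℝ × ℝ × ℝ) : Prop :=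
  (S a b ∨ S b a) ∨ (S b c ∨ S c b) ∨ (S a c ∨ S c a)

theorem Cfg.one {a b c x y z : ℝ × ℝ × ℝ} (h : Cfg a b c x y z) (h2 : ¬ T S2 a b c)
    (h3 : ¬ T S3 a b c) : False := by
  have ab : S1 a b ∨ S1 b a := by have := h.ab; unfold Sep T at *; tauto
  have bc : S1 b c ∨ S1 c b := by have := h.bc; unfold Sep T at *; tauto
  have ac : S1 a c ∨ S1 c a := by have := h.ac; unfold Sep T at *; tauto
  obtain ⟨a1, a2, a3, b1, b2, b3, c1, c2, c3, -, -, -, s1, s2, s3⟩ := h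
  rcases ab with p | p <;> rcases bc with q | q <;> rcases ac with r | r
  · exact core a b c x y z p q a1 a2 a3 b1 b2 b3 c1 c2 c3 s1 s2 s3
  · exact core a b c x y z p q a1 a2 a3 b1 b2 b3 c1 c2 c3 s1 s2 s3
  · exact core a c b x y z r q a1 a2 a3 c1 c2 c3 b1 b2 b3 s1 s2 s3
  · exact core c a b x y z r p c1 c2 c3 a1 a2 a3 b1 b2 b3 s1 s2 s3
  · exact core b a c x y z p r b1 b2 b3 a1 a2 a3 c1 c2 c3 s1 s2 s3
  · exact core b c a x y z q r b1 b2 b3 c1 c2 c3 a1 a2 a3 s1 s2 s3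
  · exact core b a c x y z p r b1 b2 b3 a1 a2 a3 c1 c2 c3 s1 s2 s3
  · exact core c b a x y z q p c1 c2 c3 b1 b2 b3 a1 a2 a3 s1 s2 s3

theorem excl {a b x y : ℝ × ℝ × ℝ} (h1 : S1 a b) (h2 : S1 x y) (ay : Meet a y) (bx : Meet b x) :
    False := by
  have := ay.2.2.1
  have := bx.2.2.2.1
  have := ay.2.2.2.1
  have := bx.2.2.1
  unfold S1 at *
  linarith

theorem Cfg.excl {a b c x y z : ℝ × ℝ × ℝ} (h : Cfg a b c x y z) (h1 : T S1 a b c)
    (h2 : T S1 x y z) : False := by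
  obtain ⟨a1, a2, a3, b1, b2, b3, c1, c2, c3, -⟩ := h
  rcases h1 with (p | p) | (p | p) | (p | p) <;> rcases h2 with (q | q) | (q | q) | (q | q) <;>
    exact K33.excl p q (by assumption) (by assumption)

theorem t1 {a b c : ℝ × ℝ × ℝ} : T S1 (rot a) (rot b) (rot c) ↔ T S2 a b c := by simp only [T, r1]
theorem t2 {a b c : ℝ × ℝ × ℝ} : T S2 (rot a) (rot b) (rot c) ↔ T S3 a b c := by simp only [T, r2]
theorem t3 {a b c : ℝ × ℝ × ℝ} : T S3 (rot a) (rot b) (rot c) ↔ T S1 a b c := by simp only [T, r3]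

theorem Cfg.false {a b c x y z : ℝ × ℝ × ℝ} (h : Cfg a b c x y z) : False := by
  have e1 := h.excl
  have e2 := h.rot.excl
  have e3 := h.rot.rot.excl
  have o1 := h.one
  have o2 := h.rot.one
  have o3 := h.rot.rot.one
  have p1 := h.symm.one
  have p2 := h.symm.rot.one
  have p3 := h.symm.rot.rot.one
  simp only [t1, t2, t3] at e2 e3 o2 o3 p2 p3
  tauto

theorem meet_iff {l r t l' r' t' : ℝ} (ht : 0 < t) :
    max t t' ≤ len l r l' r' ↔ Meet (l, -r, t) (l', -r', t') := by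
  simp only [len, Meet]
  constructor
  · intro h
    have h1 : max t t' ≤ min r r' - max l l' := by
      rcases le_max_iff.1 h with h | h
      · linarith [le_max_left t t']
      · exact h
    have := le_max_left t t'
    have := le_max_right t t'
    have := le_max_left l l'
    have := le_max_right l l'
    have := min_le_left r r'
    have := min_le_right r r'
    refine ⟨?_, ?_, ?_, ?_, ?_, ?_, ?_, ?_⟩ <;> linarith
  · rintro ⟨h1, h2, h3, h4, h5, h6, h7, h8⟩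
    refine le_trans ?_ (le_max_right _ _)
    rcases max_cases t t' with h | h <;> rcases max_cases l l' with h' | h' <;>
      rcases min_cases r r' with h'' | h'' <;> linarith [h.1, h'.1, h''.1]

theorem sep_of {p q x : ℝ × ℝ × ℝ} (hp : Meet p x) (hq : Meet q x) (h : ¬ Meet p q) : Sep p q := by
  by_contra hn
  simp only [Sep, S1, S2, S3, not_or, not_lt] at hn
  obtain ⟨⟨h1, h2⟩, ⟨h3, h4⟩, h5, h6⟩ := hn
  exact h ⟨hp.1, hq.1, h1, h2, h3, h4, h5, h6⟩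

theorem result : BoundedTol (completeBipartiteGraph (Fin 3) (Fin 3)) ∧
    ¬ MaxTol (completeBipartiteGraph (Fin 3) (Fin 3)) := by
  constructor
  · refine ⟨Sum.elim (fun i => (i.val : ℝ)) (fun i => (i.val : ℝ) + 3),
      Sum.elim (fun i => (i.val : ℝ) + 10) (fun i => (i.val : ℝ) + 6),
      Sum.elim (fun _ => 10) (fun _ => 3), ?_, ?_⟩
    · rintro (i | i) <;> simp <;> norm_num
    · rintro (i | i) (j | j) hij <;> fin_cases i <;> fin_cases j <;>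
        simp [len] at hij ⊢ <;> norm_num
  · rintro ⟨L, R, t, h1, h2⟩
    have m : ∀ i j : Fin 3, Meet (L (.inl i), -R (.inl i), t (.inl i))
        (L (.inr j), -R (.inr j), t (.inr j)) := fun i j =>
      (meet_iff (h1 _).2).1 ((h2 _ _ (by simp)).1 (by simp))
    have sa : ∀ i j : Fin 3, i ≠ j → Sep (L (.inl i), -R (.inl i), t (.inl i))
        (L (.inl j), -R (.inl j), t (.inl j)) := fun i j hij =>
      sep_of (m i 0) (m j 0) (fun h => by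
        simpa using (h2 _ _ (by simpa using hij)).2 ((meet_iff (h1 _).2).2 h))
    have sb : ∀ i j : Fin 3, i ≠ j → Sep (L (.inr i), -R (.inr i), t (.inr i))
        (L (.inr j), -R (.inr j), t (.inr j)) := fun i j hij =>
      sep_of (m 0 i).symm (m 0 j).symm (fun h => by
        simpa using (h2 _ _ (by simpa using hij)).2 ((meet_iff (h1 _).2).2 h))
    exact Cfg.false ⟨m 0 0, m 0 1, m 0 2, m 1 0, m 1 1, m 1 2, m 2 0, m 2 1, m 2 2,
      sa 0 1 (by decide), sa 1 2 (by decide), sa 0 2 (by decide),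
      sb 0 1 (by decide), sb 1 2 (by decide), sb 0 2 (by decide)⟩

end Pool.Agent.Results.MP_78c384_co.K33
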